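import Pool.Agent.Helper62.CW.LIN

/-!
# The number of points of an irreducible cubic
-/

namespace Pool.Agent.Helper74.CW

open Module Polynomial

variable {F : Type*} [Field F]

/-- a matrix with given first column -/
theorem BND_exists_mat {v : Fin 3 → F} (hv : v ≠ 0) :
    ∃ g : Matrix (Fin 3) (Fin 3) F, IsUnit g.det ∧ g.mulVec (Pi.single 0 1) = v := by
  obtain ⟨i, hi⟩ := Function.ne_iff.1 hv
  have hi' : v i ≠ 0 := hi
  fin_cases i
  · refine ⟨!![v 0, 0, 0; v 1, 1, 0; v 2, 0, 1], ?_, ?_⟩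
    · rw [Matrix.det_fin_three]
      simpa using hi'
    · funext j
      fin_cases j <;> simp
  · refine ⟨!![v 0, 1, 0; v 1, 0, 0; v 2, 0, 1], ?_, ?_⟩
    · rw [Matrix.det_fin_three]
      simpa using hi'
    · funext j
      fin_cases j <;> simp
  · refine ⟨!![v 0, 1, 0; v 1, 0, 1; v 2, 0, 0], ?_, ?_⟩
    · rw [Matrix.det_fin_three]
      simpa using hi'
    · funext j
      fin_cases j <;> simp

/-- congruent substitutions -/
theorem BND_dvd_sub {σ : Type*} (ℓ : MvPolynomial σ F) (f : σ → MvPolynomial σ F)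
    (h : ∀ i, ℓ ∣ MvPolynomial.X i - f i) (P : MvPolynomial σ F) :
    ℓ ∣ P - MvPolynomial.aeval f P := by
  have h1 : (Ideal.Quotient.mkₐ F (Ideal.span {ℓ})) =
      (Ideal.Quotient.mkₐ F (Ideal.span {ℓ})).comp (MvPolynomial.aeval f) := by
    apply MvPolynomial.algHom_ext
    intro i
    rw [AlgHom.comp_apply, MvPolynomial.aeval_X, Ideal.Quotient.mkₐ_eq_mk, Ideal.Quotient.eq,
      Ideal.mem_span_singleton]
    exact h i
  have h2 := congrArg (fun φ => φ P) h1
  simp only [AlgHom.comp_apply, Ideal.Quotient.mkₐ_eq_mk] at h2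
  rw [Ideal.Quotient.eq, Ideal.mem_span_singleton] at h2
  exact h2

/-- a binary form with a zero has a linear factor -/
theorem BND_dvd {w : Fin 2 → F} (hw : w ≠ 0) : ∃ ℓ : MvPolynomial (Fin 2) F,
    ℓ.IsHomogeneous 1 ∧ ℓ ≠ 0 ∧ ∀ (d : ℕ) (c : MvPolynomial (Fin 2) F), c.IsHomogeneous d →
      MvPolynomial.eval w c = 0 → ℓ ∣ c := by
  have key : ∀ i : Fin 2, w i ≠ 0 → ∀ (d : ℕ) (c : MvPolynomial (Fin 2) F), c.IsHomogeneous d →
      MvPolynomial.eval w c = 0 →
      (MvPolynomial.C (w 1) * MvPolynomial.X 0 - MvPolynomial.C (w 0) * MvPolynomial.X 1 :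
        MvPolynomial (Fin 2) F) ∣ c := by
    intro i hi d c hc h0
    have h1 := BND_dvd_sub (MvPolynomial.C (w 1) * MvPolynomial.X 0 -
      MvPolynomial.C (w 0) * MvPolynomial.X 1 : MvPolynomial (Fin 2) F)
      (fun j => (MvPolynomial.C (w i)⁻¹ * MvPolynomial.X i) * MvPolynomial.C (w j)) ?_ c
    · have h2 : MvPolynomial.aeval (fun j => (MvPolynomial.C (w i)⁻¹ *
          (MvPolynomial.X i : MvPolynomial (Fin 2) F)) * MvPolynomial.C (w j)) c = 0 := by
        rw [LIN_aeval_mul hc]
        have h3 : MvPolynomial.aeval (fun j => (MvPolynomial.C (w j) :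
            MvPolynomial (Fin 2) F)) c = MvPolynomial.C (MvPolynomial.eval w c) := by
          have := MvPolynomial.comp_aeval_apply w (Algebra.ofId F (MvPolynomial (Fin 2) F)) c
          rw [LIN_aeval_eq] at this
          exact this.symm
        rw [h3, h0, map_zero, mul_zero]
      rwa [h2, sub_zero] at h1
    · intro j
      have hinv : MvPolynomial.C (w i)⁻¹ * MvPolynomial.C (w i) = (1 : MvPolynomial (Fin 2) F) := by
        rw [← map_mul, inv_mul_cancel₀ hi, map_one]
      fin_cases i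
      · fin_cases j
        · refine ⟨0, ?_⟩
          simp only [Fin.zero_eta, Fin.isValue] at hinv ⊢
          linear_combination (-MvPolynomial.X 0 : MvPolynomial (Fin 2) F) * hinv
        · refine ⟨-MvPolynomial.C (w 0)⁻¹, ?_⟩
          simp only [Fin.zero_eta, Fin.isValue, Fin.mk_one] at hinv ⊢
          linear_combination (-MvPolynomial.X 1 : MvPolynomial (Fin 2) F) * hinv
      · fin_cases j
        · refine ⟨MvPolynomial.C (w 1)⁻¹, ?_⟩
          simp only [Fin.zero_eta, Fin.isValue, Fin.mk_one] at hinv ⊢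
          linear_combination (-MvPolynomial.X 0 : MvPolynomial (Fin 2) F) * hinv
        · refine ⟨0, ?_⟩
          simp only [Fin.isValue, Fin.mk_one] at hinv ⊢
          linear_combination (-MvPolynomial.X 1 : MvPolynomial (Fin 2) F) * hinv
  obtain ⟨i, hi⟩ := Function.ne_iff.1 hw
  refine ⟨_, ?_, ?_, key i hi⟩
  · exact (MvPolynomial.isHomogeneous_C_mul_X _ _).sub (MvPolynomial.isHomogeneous_C_mul_X _ _)
  · intro h
    have h1 := congrArg (MvPolynomial.eval ![1, 0]) h
    have h2 := congrArg (MvPolynomial.eval ![0, 1]) h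
    simp at h1 h2
    fin_cases i
    · exact hi h2
    · exact hi h1

theorem BND_coeff_ge {C : MvPolynomial (Fin 3) F} (hhom : C.IsHomogeneous 3) {i : ℕ}
    (hi : 3 < i) : (MvPolynomial.finSuccEquiv F 2 C).coeff i = 0 := by
  apply Polynomial.coeff_eq_zero_of_natDegree_lt
  rw [MvPolynomial.natDegree_finSuccEquiv]
  exact lt_of_le_of_lt ((MvPolynomial.degreeOf_le_totalDegree C 0).trans hhom.totalDegree_le) hi

theorem BND_eval_zero {σ : Type*} {c : MvPolynomial σ F} {d : ℕ} (hc : c.IsHomogeneous d)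
    (hd : d ≠ 0) : MvPolynomial.eval (0 : σ → F) c = 0 := by
  have h := LIN_eval_mul hc 0 (0 : σ → F)
  rw [zero_pow hd, zero_mul] at h
  rw [← h]
  congr 2
  funext i
  simp

/-- the coefficient of `x ^ 3` -/
theorem BND_coeff_three {C : MvPolynomial (Fin 3) F} (hhom : C.IsHomogeneous 3)
    (h0 : MvPolynomial.eval (Pi.single 0 1) C = 0) :
    (MvPolynomial.finSuccEquiv F 2 C).coeff 3 = 0 := by
  have hc3 := MvPolynomial.IsHomogeneous.finSuccEquiv_coeff_isHomogeneous hhom 3 0 rfl
  have hc2 := MvPolynomial.IsHomogeneous.finSuccEquiv_coeff_isHomogeneous hhom 2 1 rfl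
  have hc1 := MvPolynomial.IsHomogeneous.finSuccEquiv_coeff_isHomogeneous hhom 1 2 rfl
  have hc0 := MvPolynomial.IsHomogeneous.finSuccEquiv_coeff_isHomogeneous hhom 0 3 rfl
  have h1 : (Fin.cons 1 0 : Fin 3 → F) = Pi.single 0 1 := by
    funext j
    refine Fin.cases ?_ (fun k => ?_) j
    · simp
    · simp
  have h2 : MvPolynomial.eval (Fin.cons 1 0 : Fin 3 → F) C =
      MvPolynomial.eval (0 : Fin 2 → F) ((MvPolynomial.finSuccEquiv F 2 C).coeff 3) := by
    rw [MvPolynomial.eval_eq_eval_mv_eval', Polynomial.eval_eq_sum_range' (n := 4)]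
    · simp only [Finset.sum_range_succ, Finset.sum_range_zero, one_pow, mul_one,
        Polynomial.coeff_map]
      rw [BND_eval_zero hc0 (by norm_num), BND_eval_zero hc1 (by norm_num),
        BND_eval_zero hc2 (by norm_num)]
      simp
    · refine lt_of_le_of_lt Polynomial.natDegree_map_le ?_
      rw [MvPolynomial.natDegree_finSuccEquiv]
      exact lt_of_le_of_lt ((MvPolynomial.degreeOf_le_totalDegree C 0).trans
        hhom.totalDegree_le) (by norm_num)
  rw [h1, h0] at h2
  have h3 := (MvPolynomial.totalDegree_zero_iff_isHomogeneous _).2 hc3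
  rw [MvPolynomial.totalDegree_eq_zero_iff_eq_C] at h3
  rw [h3] at h2 ⊢
  rw [MvPolynomial.eval_C] at h2
  rw [← h2, map_zero]

theorem BND_unit {σ : Type*} {u : MvPolynomial σ F} (hu : IsUnit u) : u.totalDegree = 0 := by
  obtain ⟨v, hv⟩ := isUnit_iff_exists_inv.1 hu
  have hu0 : u ≠ 0 := hu.ne_zero
  have hv0 : v ≠ 0 := right_ne_zero_of_mul (a := u) (by rw [hv]; exact one_ne_zero)
  have h := MvPolynomial.totalDegree_mul_of_isDomain hu0 hv0
  rw [hv, MvPolynomial.totalDegree_one] at h
  omega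

/-- the restriction of `C` to a line through `e_0` -/
theorem BND_ne_zero {C : MvPolynomial (Fin 3) F} (hC : Irreducible C) (hhom : C.IsHomogeneous 3)
    {w : Fin 2 → F} (hw : w ≠ 0)
    (h0 : (MvPolynomial.finSuccEquiv F 2 C).map (MvPolynomial.eval w) = 0) : False := by
  obtain ⟨ℓ, hℓ, hℓ0, hdvd⟩ := BND_dvd hw
  have hco : ∀ i, ℓ ∣ (MvPolynomial.finSuccEquiv F 2 C).coeff i := by
    intro i
    rcases lt_or_ge 3 i with h | h
    · rw [BND_coeff_ge hhom h]
      exact dvd_zero _
    · refine hdvd (3 - i) _ (MvPolynomial.IsHomogeneous.finSuccEquiv_coeff_isHomogeneous hhom i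
        (3 - i) (by omega)) ?_
      rw [← MvPolynomial.coeff_eval_eq_eval_coeff, h0, Polynomial.coeff_zero]
  have h1 : Polynomial.C ℓ ∣ MvPolynomial.finSuccEquiv F 2 C :=
    (Polynomial.C_dvd_iff_dvd_coeff _ _).2 hco
  have hirr : Irreducible (MvPolynomial.finSuccEquiv F 2 C) :=
    (MulEquiv.irreducible_iff (MvPolynomial.finSuccEquiv F 2)).2 hC
  obtain ⟨Q, hQ⟩ := h1
  rcases hirr.isUnit_or_isUnit hQ with h | h
  · rw [Polynomial.isUnit_C] at h
    have h2 := BND_unit h
    rw [hℓ.totalDegree hℓ0] at h2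
    exact one_ne_zero h2
  · obtain ⟨u, hu, rfl⟩ := Polynomial.isUnit_iff.1 h
    have hu0 := BND_unit hu
    have h3 : (MvPolynomial.finSuccEquiv F 2 C).coeff 0 = ℓ * u := by
      rw [hQ, ← map_mul, Polynomial.coeff_C_zero]
    have h4 : (ℓ * u).IsHomogeneous 3 := by
      rw [← h3]
      exact MvPolynomial.IsHomogeneous.finSuccEquiv_coeff_isHomogeneous hhom 0 3 rfl
    have h5 : (ℓ * u).IsHomogeneous (1 + 0) :=
      hℓ.mul ((MvPolynomial.totalDegree_zero_iff_isHomogeneous _).1 hu0)
    have h6 : ℓ * u ≠ 0 := mul_ne_zero hℓ0 hu.ne_zero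
    have := h4.inj_right h5 h6
    norm_num at this

theorem BND_linear_zeros [Fintype F] [DecidableEq F] {c : MvPolynomial (Fin 2) F}
    (hc : c.IsHomogeneous 1) : Fintype.card F - 1 ≤
      (Finset.univ.filter (fun w : Fin 2 → F => w ≠ 0 ∧ MvPolynomial.eval w c = 0)).card := by
  have h1 : c ∈ MvPolynomial.homogeneousSubmodule (Fin 2) F 1 := hc
  rw [MvPolynomial.homogeneousSubmodule_one_eq_span_X, Submodule.mem_span_range_iff_exists_fun]
    at h1
  obtain ⟨a, ha⟩ := h1
  have hev : ∀ w : Fin 2 → F, MvPolynomial.eval w c = a 0 * w 0 + a 1 * w 1 := by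
    intro w
    rw [← ha]
    simp [MvPolynomial.smul_eval]
  obtain ⟨w, hw, hw0⟩ : ∃ w : Fin 2 → F, w ≠ 0 ∧ MvPolynomial.eval w c = 0 := by
    by_cases h : a 0 = 0 ∧ a 1 = 0
    · refine ⟨![1, 0], ?_, ?_⟩
      · intro h'
        have := congrFun h' 0
        simp at this
      · rw [hev, h.1, h.2]
        ring
    · refine ⟨![a 1, -a 0], ?_, ?_⟩
      · intro h'
        apply h
        have e0 := congrFun h' 0
        have e1 := congrFun h' 1
        simp at e0 e1
        exact ⟨e1, e0⟩
      · rw [hev]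
        simp
        ring
  rw [← Fintype.card_units, ← Finset.card_univ]
  refine Finset.card_le_card_of_injOn (fun u : Fˣ => (fun i => (u : F) * w i)) ?_ ?_
  · intro u _
    rw [Finset.mem_coe, Finset.mem_filter]
    refine ⟨Finset.mem_univ _, ?_, ?_⟩
    · intro h
      apply hw
      funext i
      have := congrFun h i
      exact (mul_eq_zero.1 this).resolve_left u.ne_zero
    · rw [LIN_eval_mul hc, hw0, mul_zero]
  · intro u _ u' _ h
    obtain ⟨i, hi⟩ := Function.ne_iff.1 hw
    have := congrFun h i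
    exact Units.ext (mul_right_cancel₀ hi this)

theorem BND_special [Fintype F] [DecidableEq F] {C : MvPolynomial (Fin 3) F} (hC : Irreducible C)
    (hhom : C.IsHomogeneous 3) (h0 : MvPolynomial.eval (Pi.single 0 1) C = 0) :
    zeros C ≤ (Fintype.card F - 1) * (2 * Fintype.card F + 2) := by
  classical
  set c2 := (MvPolynomial.finSuccEquiv F 2 C).coeff 2 with hc2
  have hc2h : c2.IsHomogeneous 1 :=
    MvPolynomial.IsHomogeneous.finSuccEquiv_coeff_isHomogeneous hhom 2 1 rfl
  have hdeg : ∀ w : Fin 2 → F,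
      ((MvPolynomial.finSuccEquiv F 2 C).map (MvPolynomial.eval w)).natDegree ≤
        (if MvPolynomial.eval w c2 = 0 then 1 else 2) := by
    intro w
    rw [Polynomial.natDegree_le_iff_coeff_eq_zero]
    intro i hi
    rw [MvPolynomial.coeff_eval_eq_eval_coeff]
    split_ifs at hi with h
    · rcases lt_or_ge 3 i with h' | h'
      · rw [BND_coeff_ge hhom h', map_zero]
      · obtain rfl | rfl : i = 2 ∨ i = 3 := by omega
        · exact h
        · rw [BND_coeff_three hhom h0, map_zero]
    · rcases lt_or_ge 3 i with h' | h'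
      · rw [BND_coeff_ge hhom h', map_zero]
      · obtain rfl : i = 3 := by omega
        rw [BND_coeff_three hhom h0, map_zero]
  have hz : zeros C = (Finset.univ.filter (fun v : Fin 3 → F =>
      v ≠ 0 ∧ MvPolynomial.eval v C = 0)).card := by
    unfold zeros
    rw [Nat.card_eq_fintype_card, Fintype.card_subtype]
  rw [hz, Finset.card_eq_sum_card_fiberwise (f := fun v : Fin 3 → F => (Fin.tail v : Fin 2 → F))
    (t := Finset.univ) (fun _ _ => Finset.mem_coe.2 (Finset.mem_univ _))]
  set f : (Fin 2 → F) → ℕ := fun w => ((Finset.univ.filter (fun v : Fin 3 → F =>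
      v ≠ 0 ∧ MvPolynomial.eval v C = 0)).filter (fun v => (Fin.tail v : Fin 2 → F) = w)).card
    with hf
  change ∑ w, f w ≤ _
  have hf0 : f 0 ≤ Fintype.card F - 1 := by
    rw [← Fintype.card_units, ← Finset.card_univ]
    have h1 : (Finset.univ : Finset F).card - 1 = ((Finset.univ : Finset F).erase 0).card := by
      rw [Finset.card_erase_of_mem (Finset.mem_univ _)]
    rw [Finset.card_univ (α := Fˣ), Fintype.card_units, ← Finset.card_univ, h1]
    refine Finset.card_le_card_of_injOn (fun v => v 0) ?_ ?_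
    · intro v hv
      simp only [Finset.coe_filter, Finset.mem_filter, Finset.mem_univ, true_and,
        Set.mem_ofPred_eq] at hv
      rw [Finset.mem_coe, Finset.mem_erase]
      refine ⟨?_, Finset.mem_univ _⟩
      intro h
      apply hv.1.1
      have h' : v 0 = 0 := h
      rw [← Fin.cons_self_tail v, hv.2, h']
      funext j
      refine Fin.cases ?_ (fun k => ?_) j
      · simp
      · simp
    · intro v hv v' hv' h
      simp only [Finset.coe_filter, Finset.mem_filter, Finset.mem_univ, true_and,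
        Set.mem_ofPred_eq] at hv hv'
      rw [← Fin.cons_self_tail v, ← Fin.cons_self_tail v', hv.2, hv'.2]
      have h' : v 0 = v' 0 := h
      rw [h']
  have hf1 : ∀ w : Fin 2 → F, w ≠ 0 → f w +
      (if w ≠ 0 ∧ MvPolynomial.eval w c2 = 0 then 1 else 0) ≤ 2 := by
    intro w hw
    have h1 : f w ≤ ((MvPolynomial.finSuccEquiv F 2 C).map (MvPolynomial.eval w)).natDegree := by
      refine le_trans ?_ (Polynomial.card_roots' _)
      refine le_trans ?_ (Multiset.toFinset_card_le _)
      refine Finset.card_le_card_of_injOn (fun v => v 0) ?_ ?_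
      · intro v hv
        simp only [Finset.coe_filter, Finset.mem_filter, Finset.mem_univ, true_and,
          Set.mem_ofPred_eq] at hv
        rw [Finset.mem_coe, Multiset.mem_toFinset, Polynomial.mem_roots
          (fun h => BND_ne_zero hC hhom hw h), Polynomial.IsRoot.def,
          ← MvPolynomial.eval_eq_eval_mv_eval', ← hv.2, Fin.cons_self_tail]
        exact hv.1.2
      · intro v hv v' hv' h
        simp only [Finset.coe_filter, Finset.mem_filter, Finset.mem_univ, true_and,
          Set.mem_ofPred_eq] at hv hv'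
        rw [← Fin.cons_self_tail v, ← Fin.cons_self_tail v', hv.2, hv'.2]
        have h' : v 0 = v' 0 := h
        rw [h']
    have h2 := hdeg w
    by_cases h : MvPolynomial.eval w c2 = 0
    · rw [if_pos h] at h2
      rw [if_pos ⟨hw, h⟩]
      omega
    · rw [if_neg h] at h2
      rw [if_neg (fun h' => h h'.2)]
      omega
  have hsum : ∑ w ∈ Finset.univ.erase (0 : Fin 2 → F), (f w +
      (if w ≠ 0 ∧ MvPolynomial.eval w c2 = 0 then 1 else 0)) ≤
      2 * (Fintype.card F ^ 2 - 1) := by
    refine le_trans (Finset.sum_le_card_nsmul _ _ 2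
      (fun w hw => hf1 w (Finset.ne_of_mem_erase hw))) ?_
    rw [Finset.card_erase_of_mem (Finset.mem_univ _), Finset.card_univ, Fintype.card_fun,
      Fintype.card_fin, smul_eq_mul, mul_comm]
  rw [Finset.sum_add_distrib] at hsum
  have hlin : Fintype.card F - 1 ≤ ∑ w ∈ Finset.univ.erase (0 : Fin 2 → F),
      (if w ≠ 0 ∧ MvPolynomial.eval w c2 = 0 then 1 else 0) := by
    refine le_trans (BND_linear_zeros hc2h) ?_
    rw [Finset.card_filter, ← Finset.add_sum_erase _ _ (Finset.mem_univ (0 : Fin 2 → F))]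
    simp
  rw [← Finset.add_sum_erase _ _ (Finset.mem_univ (0 : Fin 2 → F))]
  have hq : 1 ≤ Fintype.card F := Fintype.card_pos
  obtain ⟨q, hq'⟩ := Nat.exists_eq_add_of_le hq
  rw [hq'] at hsum hlin hf0 ⊢
  have e1 : 1 + q - 1 = q := by omega
  have e2 : (1 + q) ^ 2 - 1 = q * (q + 2) := by
    have : (1 + q) ^ 2 = q * (q + 2) + 1 := by ring
    omega
  rw [e1] at hf0 hlin ⊢
  rw [e2] at hsum
  have e3 : q * (2 * (1 + q) + 2) = 2 * (q * (q + 2)) := by ring
  rw [e3]
  omega

theorem zeros_le [Finite F] {C : MvPolynomial (Fin 3) F} (hC : Irreducible C)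
    (hhom : C.IsHomogeneous 3) : zeros C ≤ (Nat.card F - 1) * (2 * Nat.card F + 2) := by
  classical
  have : Fintype F := Fintype.ofFinite F
  rw [Nat.card_eq_fintype_card]
  by_cases h : ∃ v : Fin 3 → F, v ≠ 0 ∧ MvPolynomial.eval v C = 0
  · obtain ⟨v, hv, hv0⟩ := h
    obtain ⟨g, hg, hgv⟩ := BND_exists_mat hv
    obtain ⟨h1, h2, h3, -⟩ := subst_facts (K := F) hC hhom hg
    rw [← h3]
    refine BND_special h1 h2 ?_
    rw [LIN_eval, hgv, hv0]
  · have h1 : zeros C = 0 := by
      unfold zeros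
      rw [Nat.card_eq_zero]
      left
      exact ⟨fun v => h ⟨v.1, v.2⟩⟩
    rw [h1]
    exact Nat.zero_le _

end Pool.Agent.Helper74.CW
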