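import Pool.Agent.Helper74.CW.Defs

/-!
# Linear changes of coordinates in a cubic form
-/

namespace Pool.Agent.Helper74.CW

open Module Polynomial

variable {F K : Type*} [Field F] [Field K] [Algebra F K]

/-- scaling in a homogeneous polynomial -/
theorem LIN_aeval_mul {σ S : Type*} [CommSemiring S] [Algebra F S] {C : MvPolynomial σ F}
    {n : ℕ} (hC : C.IsHomogeneous n) (r : S) (f : σ → S) :
    MvPolynomial.aeval (fun i => r * f i) C = r ^ n * MvPolynomial.aeval f C := by
  classical
  rw [MvPolynomial.aeval_def, MvPolynomial.aeval_def, MvPolynomial.eval₂_eq,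
    MvPolynomial.eval₂_eq, Finset.mul_sum]
  refine Finset.sum_congr rfl fun d hd => ?_
  have h1 : d.sum (fun _ k => k) = n := by
    have := hC.degree_eq_sum_deg_support hd
    rw [this]
    rfl
  have h2 : ∏ i ∈ d.support, (r * f i) ^ d i = r ^ n * ∏ i ∈ d.support, f i ^ d i := by
    simp only [mul_pow]
    rw [Finset.prod_mul_distrib, Finset.prod_pow_eq_pow_sum, ← h1]
    rfl
  rw [h2]
  ring

theorem LIN_aeval_eq {σ : Type*} (C : MvPolynomial σ F) (f : σ → F) :
    MvPolynomial.aeval f C = MvPolynomial.eval f C := by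
  rw [← MvPolynomial.coe_aeval_eq_eval]
  rfl

theorem LIN_eval_mul {σ : Type*} {C : MvPolynomial σ F}
    {n : ℕ} (hC : C.IsHomogeneous n) (r : F) (f : σ → F) :
    MvPolynomial.eval (fun i => r * f i) C = r ^ n * MvPolynomial.eval f C := by
  have := LIN_aeval_mul (S := F) hC r f
  rwa [LIN_aeval_eq, LIN_aeval_eq] at this

theorem zeros_dvd [Finite F] {C : MvPolynomial (Fin 3) F} {n : ℕ} (hC : C.IsHomogeneous n) :
    ∃ m, zeros C = (Nat.card F - 1) * m := by
  classical
  let Z : SubMulAction Fˣ (Fin 3 → F) :=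
    { carrier := {v | v ≠ 0 ∧ MvPolynomial.eval v C = 0}
      smul_mem' := by
        rintro c v ⟨h1, h2⟩
        refine ⟨?_, ?_⟩
        · intro h
          exact h1 ((smul_eq_zero_iff_eq c).1 h)
        · have h3 : (c • v) = fun i => (c : F) * v i := by
            funext i
            rfl
          rw [h3, LIN_eval_mul hC, h2, mul_zero] }
  have hst : ∀ b : Z, MulAction.stabilizer Fˣ b = ⊥ := by
    intro b
    rw [eq_bot_iff]
    intro c hc
    rw [MulAction.mem_stabilizer_iff] at hc
    have h1 : c • (b : Fin 3 → F) = b := by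
      have := congrArg Subtype.val hc
      exact this
    have h2 : (b : Fin 3 → F) ≠ 0 := b.2.1
    obtain ⟨i, hi⟩ := Function.ne_iff.1 h2
    have h3 := congrFun h1 i
    have h4 : (c : F) * (b : Fin 3 → F) i = (b : Fin 3 → F) i := h3
    have h5 : (c : F) = 1 := mul_right_cancel₀ hi (by rw [h4, one_mul])
    rw [Subgroup.mem_bot]
    exact Units.ext h5
  have e := MulAction.selfEquivOrbitsQuotientProd hst
  refine ⟨Nat.card (Quotient (MulAction.orbitRel Fˣ Z)), ?_⟩
  have h1 : Nat.card Z = Nat.card (Quotient (MulAction.orbitRel Fˣ Z)) * Nat.card Fˣ := by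
    rw [Nat.card_congr e, Nat.card_prod]
  have h2 : Nat.card Fˣ = Nat.card F - 1 := Nat.card_units F
  rw [← h2, mul_comm, ← h1]
  rfl

private theorem LIN_comp (g h : Matrix (Fin 3) (Fin 3) F) (hgh : g * h = 1)
    (C : MvPolynomial (Fin 3) F) :
    MvPolynomial.aeval (fun i => ∑ j, MvPolynomial.C (h i j) *
      (MvPolynomial.X j : MvPolynomial (Fin 3) F))
      (MvPolynomial.aeval (fun i => ∑ j, MvPolynomial.C (g i j) *
        (MvPolynomial.X j : MvPolynomial (Fin 3) F)) C) = C := by
  rw [← AlgHom.comp_apply]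
  conv_rhs => rw [← AlgHom.id_apply (R := F) C]
  congr 1
  apply MvPolynomial.algHom_ext
  intro i
  rw [AlgHom.comp_apply, MvPolynomial.aeval_X, map_sum, AlgHom.id_apply]
  have h1 : ∀ j, MvPolynomial.aeval (fun i => ∑ j, MvPolynomial.C (h i j) *
      (MvPolynomial.X j : MvPolynomial (Fin 3) F)) (MvPolynomial.C (g i j) *
        (MvPolynomial.X j : MvPolynomial (Fin 3) F)) =
        ∑ k, MvPolynomial.C (g i j * h j k) * (MvPolynomial.X k : MvPolynomial (Fin 3) F) := by
    intro j
    rw [map_mul, MvPolynomial.aeval_X, MvPolynomial.aeval_C, Finset.mul_sum]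
    refine Finset.sum_congr rfl fun k _ => ?_
    rw [MvPolynomial.algebraMap_eq, map_mul, mul_assoc]
  rw [Finset.sum_congr rfl fun j _ => h1 j, Finset.sum_comm]
  have h2 : ∀ k, ∑ j, MvPolynomial.C (g i j * h j k) *
      (MvPolynomial.X k : MvPolynomial (Fin 3) F) =
      MvPolynomial.C ((1 : Matrix (Fin 3) (Fin 3) F) i k) * MvPolynomial.X k := by
    intro k
    rw [← Finset.sum_mul, ← map_sum, ← hgh, Matrix.mul_apply]
  rw [Finset.sum_congr rfl fun k _ => h2 k, Finset.sum_eq_single i]
  · simp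
  · intro k _ hk
    rw [Matrix.one_apply_ne (Ne.symm hk)]
    simp
  · intro h
    exact absurd (Finset.mem_univ i) h

/-- the value of the transformed polynomial -/
theorem LIN_aeval {S : Type*} [CommRing S] [Algebra F S] (g : Matrix (Fin 3) (Fin 3) F)
    (u : Fin 3 → S) (C : MvPolynomial (Fin 3) F) :
    MvPolynomial.aeval u (MvPolynomial.aeval (fun i => ∑ j, MvPolynomial.C (g i j) *
        (MvPolynomial.X j : MvPolynomial (Fin 3) F)) C) =
      MvPolynomial.aeval (fun i => ∑ j, g i j • u j) C := by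
  rw [← AlgHom.comp_apply]
  congr 1
  apply MvPolynomial.algHom_ext
  intro i
  rw [AlgHom.comp_apply, MvPolynomial.aeval_X, MvPolynomial.aeval_X, map_sum]
  refine Finset.sum_congr rfl fun j _ => ?_
  rw [map_mul, MvPolynomial.aeval_X, MvPolynomial.aeval_C, Algebra.smul_def]

theorem LIN_eval (g : Matrix (Fin 3) (Fin 3) F)
    (u : Fin 3 → F) (C : MvPolynomial (Fin 3) F) :
    MvPolynomial.eval u (MvPolynomial.aeval (fun i => ∑ j, MvPolynomial.C (g i j) *
        (MvPolynomial.X j : MvPolynomial (Fin 3) F)) C) =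
      MvPolynomial.eval (g.mulVec u) C := by
  have h := LIN_aeval (S := F) g u C
  rw [LIN_aeval_eq, LIN_aeval_eq] at h
  exact h

/-- the change of coordinates as an automorphism -/
theorem LIN_equiv {g : Matrix (Fin 3) (Fin 3) F} (hg : IsUnit g.det) :
    ∃ e : MvPolynomial (Fin 3) F ≃ₐ[F] MvPolynomial (Fin 3) F, ∀ C,
      e C = MvPolynomial.aeval (fun i => ∑ j, MvPolynomial.C (g i j) *
        (MvPolynomial.X j : MvPolynomial (Fin 3) F)) C := by
  refine ⟨AlgEquiv.ofAlgHom (MvPolynomial.aeval (fun i => ∑ j, MvPolynomial.C (g i j) *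
        (MvPolynomial.X j : MvPolynomial (Fin 3) F)))
      (MvPolynomial.aeval (fun i => ∑ j, MvPolynomial.C (g⁻¹ i j) *
        (MvPolynomial.X j : MvPolynomial (Fin 3) F))) ?_ ?_, ?_⟩
  · apply AlgHom.ext
    intro C
    exact LIN_comp g⁻¹ g (Matrix.nonsing_inv_mul g hg) C
  · apply AlgHom.ext
    intro C
    exact LIN_comp g g⁻¹ (Matrix.mul_nonsing_inv g hg) C
  · intro C
    rfl

theorem subst_facts [Finite F] {C : MvPolynomial (Fin 3) F} (hC : Irreducible C)
    (hhom : C.IsHomogeneous 3) {g : Matrix (Fin 3) (Fin 3) F} (hg : IsUnit g.det) :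
    Irreducible (MvPolynomial.aeval (fun i => ∑ j, MvPolynomial.C (g i j) *
      (MvPolynomial.X j : MvPolynomial (Fin 3) F)) C) ∧
    (MvPolynomial.aeval (fun i => ∑ j, MvPolynomial.C (g i j) *
      (MvPolynomial.X j : MvPolynomial (Fin 3) F)) C).IsHomogeneous 3 ∧
    zeros (MvPolynomial.aeval (fun i => ∑ j, MvPolynomial.C (g i j) *
      (MvPolynomial.X j : MvPolynomial (Fin 3) F)) C) = zeros C ∧
    ∀ u : Fin 3 → K, LinearIndependent F u → MvPolynomial.aeval u C = 0 →
      ∃ u' : Fin 3 → K, LinearIndependent F u' ∧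
        MvPolynomial.aeval u' (MvPolynomial.aeval (fun i => ∑ j, MvPolynomial.C (g i j) *
          (MvPolynomial.X j : MvPolynomial (Fin 3) F)) C) = 0 := by
  classical
  refine ⟨?_, ?_, ?_, ?_⟩
  · obtain ⟨e, he⟩ := LIN_equiv (F := F) hg
    rw [← he C]
    exact (MulEquiv.irreducible_iff e).2 hC
  · have h1 := hhom.aeval (n := 1) (fun i => ∑ j, MvPolynomial.C (g i j) *
      (MvPolynomial.X j : MvPolynomial (Fin 3) F)) (fun i =>
        MvPolynomial.IsHomogeneous.sum _ _ _ fun j _ => MvPolynomial.isHomogeneous_C_mul_X _ _)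
    simpa using h1
  · unfold zeros
    have hinj : ∀ v : Fin 3 → F, g.mulVec v = 0 → v = 0 := by
      intro v hv
      have := congrArg (g⁻¹.mulVec) hv
      rwa [Matrix.mulVec_mulVec, Matrix.nonsing_inv_mul g hg, Matrix.one_mulVec,
        Matrix.mulVec_zero] at this
    refine Nat.card_congr (Equiv.mk (fun v => ⟨g.mulVec v.1, ?_, ?_⟩)
      (fun v => ⟨g⁻¹.mulVec v.1, ?_, ?_⟩) ?_ ?_)
    · intro h
      exact v.2.1 (hinj _ h)
    · rw [← LIN_eval]
      exact v.2.2
    · intro h
      apply v.2.1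
      have := congrArg (g.mulVec) h
      rwa [Matrix.mulVec_mulVec, Matrix.mul_nonsing_inv g hg, Matrix.one_mulVec,
        Matrix.mulVec_zero] at this
    · rw [LIN_eval, Matrix.mulVec_mulVec, Matrix.mul_nonsing_inv g hg, Matrix.one_mulVec]
      exact v.2.2
    · intro v
      apply Subtype.ext
      simp only [Matrix.mulVec_mulVec, Matrix.nonsing_inv_mul g hg, Matrix.one_mulVec]
    · intro v
      apply Subtype.ext
      simp only [Matrix.mulVec_mulVec, Matrix.mul_nonsing_inv g hg, Matrix.one_mulVec]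
  · intro u hu hCu
    refine ⟨fun i => ∑ j, g⁻¹ i j • u j, ?_, ?_⟩
    · rw [Fintype.linearIndependent_iff] at hu ⊢
      intro c hc
      have h1 : ∑ j, (Matrix.vecMul c g⁻¹) j • u j = 0 := by
        rw [← hc]
        simp only [Finset.smul_sum, smul_smul]
        rw [Finset.sum_comm]
        refine Finset.sum_congr rfl fun j _ => ?_
        rw [← Finset.sum_smul]
        rfl
      have h2 : Matrix.vecMul c g⁻¹ = 0 := funext (hu _ h1)
      have h3 : c = 0 := by
        have := congrArg (fun w => Matrix.vecMul w g) h2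
        simpa only [Matrix.vecMul_vecMul, Matrix.nonsing_inv_mul g hg, Matrix.vecMul_one,
          Matrix.zero_vecMul] using this
      intro i
      rw [h3]
      rfl
    · rw [LIN_aeval]
      have h1 : (fun i => ∑ j, g i j • (∑ k, g⁻¹ j k • u k)) = u := by
        funext i
        simp only [Finset.smul_sum, smul_smul]
        rw [Finset.sum_comm]
        have h2 : ∀ k, ∑ j, (g i j * g⁻¹ j k) • u k =
            ((1 : Matrix (Fin 3) (Fin 3) F) i k) • u k := by
          intro k
          rw [← Finset.sum_smul, ← Matrix.mul_nonsing_inv g hg, Matrix.mul_apply]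
        rw [Finset.sum_congr rfl fun k _ => h2 k, Finset.sum_eq_single i]
        · simp
        · intro k _ hk
          rw [Matrix.one_apply_ne (Ne.symm hk), zero_smul]
        · intro h
          exact absurd (Finset.mem_univ i) h
      rw [h1]
      exact hCu

end Pool.Agent.Helper74.CW
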